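import Pool.Agent.L7h2.EN.Sqrt

/-!
# Linear relations between consecutive digits of an irrational algebraic number

Let `x` be an irrational real algebraic integer, `b ≥ 2` any base and `a_k` the base `b` digits of `x`
(more generally let `w x` be an algebraic integer; see the condition below). We look at relations
`q_0 a_k + … + q_{m-1} a_{k+m-1} = e` with fixed integer coefficients, not all `q_t` zero. They fail
for a positive proportion of the `k` if `x` is normal to base `b`. Known were (starting results)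
`c (log N)^3 / (log log N)^5` failures up to `N` for all `x`, `b`, and `c N^δ` failures if some prime
`p` not dividing `b` has only ramified primes above it in `ℚ(x)`, which excludes for instance
`x = √2`, `b = 2`. We prove without any condition on ramification:

1. if the relation is not satisfied by all constant words, that is unless `e = 0 = ∑ q_t`, it fails
   at least `c N^δ` times up to `N`;
2. if `e = 0 = ∑ q_t` then up to `N` all but at most `C (1 + E(κ N))^κ` blocks of length `T` of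
   consecutive digits are constant `0` or constant `b - 1`, `E` the number of failures. So the
   number of digit changes is at most `C (1 + E(κ N))^κ`: all these relations are
   polynomially equivalent to the relation `a_k = a_{k+1}`;
3. for the binary digits of `√2` the exponent is explicit; for instance `a_k = a_{k+P}` for at least
   `c N^(1 / (2^P + 1))` of the `k ≤ N`, and `a_k = a_{k+1}` for at least `c N^(1/3)` of them.

Proof. If the relation rarely fails then the integers
`U_K = (b - 1) ∑ q_t ⌊x b^(K+t)⌋ + e` satisfy `U_{K+1} = b U_K` for most `K`, and `U_K = b^K θ + O(1)` with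
`θ = (b - 1) A x`, `A = ∑ q_t b^t`. For a prime `p` dividing `(b - 1) A` and not `b` the number `θ` is
nilpotent modulo `p`, and the Frobenius argument of the starting files (`Pool.Agent.H323R2`) shows
that `p` divides `U_K` for all but few `K`; then the same holds for `U_K / p` and so on. In the
end `U_K` is divisible by the prime-to-`b` part of `(b - 1) A` for all but few `K`, so that `b^K x` is
close to an integer. If `A = 0` the relation is first divided by `X - b`.
-/

set_option autoImplicit false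

namespace Pool.Agent.Results.MP_c8ecb2_nt.AllRelationsPowerRate

open Finset Filter

/-- the `k`-th digit of `x` after the point in base `b` -/
noncomputable def digit (b : ℕ) (x : ℝ) (k : ℕ) : ℤ := ⌊x * (b : ℝ) ^ k⌋ % (b : ℤ)

/-- the number of `k` in `[1, N]` for which the relation `q_0 a_k + … + q_{m-1} a_{k+m-1} = e` between
the digits `a_k` of `x` fails -/
noncomputable def failures (b : ℕ) (x : ℝ) {m : ℕ} (q : Fin m → ℤ) (e : ℤ) (N : ℕ) : ℕ :=
  ((Icc 1 N).filter (fun k : ℕ => ∑ t : Fin m, q t * digit b x (k + t) ≠ e)).card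

/-- the number of `k` in `[1, N]` for which the `T` digits `a_k, …, a_{k+T-1}` of `x` are neither all
`0` nor all `b - 1`; for `T = 2` this is at least the number of digit changes -/
noncomputable def mixed (b : ℕ) (x : ℝ) (T N : ℕ) : ℕ :=
  Set.ncard {k : ℕ | 1 ≤ k ∧ k ≤ N ∧ ¬ (∀ i < T, digit b x (k + i) = 0) ∧
    ¬ (∀ i < T, digit b x (k + i) = (b : ℤ) - 1)}

lemma failures_eq (b : ℕ) (x : ℝ) {m : ℕ} (q : Fin m → ℤ) (e : ℤ) (N : ℕ) :
    failures b x q e N = Pool.Agent.L7h2.EN.fl1 b x m (Pool.Agent.L7h2.EN.ext q) e N := by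
  unfold failures Pool.Agent.L7h2.EN.fl1 Pool.Agent.L7h2.EN.rs1
  congr 1
  apply Finset.filter_congr
  intro k _
  rw [Pool.Agent.L7h2.EN.sum_ext q (fun t => Pool.Agent.L7h2.EN.dg b x (k + t))]
  rfl

lemma mixed_eq (b : ℕ) (x : ℝ) (T N : ℕ) : mixed b x T N = Pool.Agent.L7h2.EN.chg b x T N := by
  classical
  unfold mixed Pool.Agent.L7h2.EN.chg
  rw [← Set.ncard_coe_finset]
  congr 1
  ext k
  simp only [Set.mem_ofPred_eq, Finset.coe_filter, Finset.mem_Icc, not_or, and_assoc]
  rfl

/-- (1), (2) Let `x` be a real irrational number, `w ≥ 1` such that `w x` is an algebraic integer,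
`b ≥ 2`, let `q_0, …, q_{m-1}` be integers, not all zero, and `e` an integer. Assume that every common
prime divisor of `w` and `(b - 1) ∑ q_t b^t` divides `b` (this holds if `x` is an algebraic integer,
`w = 1`). If not `e = 0 = ∑ q_t` then the relation `∑ q_t a_{k+t} = e` fails at least `c N^δ`
times. For every `T`, `mixed b x T N ≤ C (1 + failures b x q e (κ N))^κ` for all `N`.

(3) Let `A = ∑ q_t 2^t ≠ 0`, `e ≠ 0` and `e ≠ ∑ q_t`. If all odd prime powers dividing `A` are at
most `κ`, then the relation between the binary digits of `√2` fails at least `c N^(1/κ)` times.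

(4) For `P ≥ 1` the digits of `√2` at the places `k` and `k + P` are equal for at least
`c N^(1 / (2^P + 1))` of the `k ≤ N`. -/
theorem result :
    (∀ (b : ℕ) (x : ℝ) (w : ℕ), 2 ≤ b → Irrational x → w ≠ 0 → IsIntegral ℤ ((w : ℝ) * x) →
      ∀ (m : ℕ) (q : Fin m → ℤ) (e : ℤ), q ≠ 0 →
        (∀ p : ℕ, p.Prime → p ∣ w → (p : ℤ) ∣ ((b : ℤ) - 1) * ∑ t : Fin m, q t * (b : ℤ) ^ (t : ℕ) →
          p ∣ b) →
        (¬ (e = 0 ∧ ∑ t : Fin m, q t = 0) → ∃ c δ : ℝ, 0 < c ∧ 0 < δ ∧ ∀ᶠ N : ℕ in atTop,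
          c * (N : ℝ) ^ δ ≤ (failures b x q e N : ℝ)) ∧
        ∀ T : ℕ, ∃ (C : ℝ) (κ : ℕ), ∀ N : ℕ, (mixed b x T N : ℝ) ≤
          C * (1 + (failures b x q e (κ * N) : ℝ)) ^ κ) ∧
    (∀ (m : ℕ) (q : Fin m → ℤ) (e : ℤ), ∑ t : Fin m, q t * 2 ^ (t : ℕ) ≠ 0 → e ≠ 0 →
      e ≠ ∑ t : Fin m, q t → ∀ κ : ℕ, 1 ≤ κ →
      (∀ p r : ℕ, p.Prime → p ≠ 2 → (p : ℤ) ^ r ∣ ∑ t : Fin m, q t * 2 ^ (t : ℕ) → p ^ r ≤ κ) →
      ∃ c : ℝ, 0 < c ∧ ∀ᶠ N : ℕ in atTop,
        c * (N : ℝ) ^ ((1 : ℝ) / (κ : ℝ)) ≤ (failures 2 (√2) q e N : ℝ)) ∧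
    (∀ P : ℕ, 1 ≤ P → ∃ c : ℝ, 0 < c ∧ ∀ᶠ N : ℕ in atTop,
      c * (N : ℝ) ^ ((1 : ℝ) / (2 ^ P + 1)) ≤
        (((Icc 1 N).filter (fun k : ℕ => digit 2 (√2) k = digit 2 (√2) (k + P))).card : ℝ)) := by
  have hsqrt : ∀ (m : ℕ) (q : Fin m → ℤ) (e : ℤ), ∑ t : Fin m, q t * 2 ^ (t : ℕ) ≠ 0 → e ≠ 0 →
      e ≠ ∑ t : Fin m, q t → ∀ κ : ℕ, 1 ≤ κ →
      (∀ p r : ℕ, p.Prime → p ≠ 2 → (p : ℤ) ^ r ∣ ∑ t : Fin m, q t * 2 ^ (t : ℕ) → p ^ r ≤ κ) →
      ∃ c : ℝ, 0 < c ∧ ∀ᶠ N : ℕ in atTop,
        c * (N : ℝ) ^ ((1 : ℝ) / (κ : ℝ)) ≤ (failures 2 (√2) q e N : ℝ) := by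
    intro m q e hA he0 he1 κ hκ hκ2
    obtain ⟨c, hc, h⟩ := Pool.Agent.L7h2.EN.sqrt_two m (Pool.Agent.L7h2.EN.ext q) e
      (by rw [Pool.Agent.L7h2.EN.sum_ext q (fun t => (2 : ℤ) ^ t)]; exact hA) he0
      (by rw [Pool.Agent.L7h2.EN.sum_ext_one]; exact he1) κ hκ
      (by rw [Pool.Agent.L7h2.EN.sum_ext q (fun t => (2 : ℤ) ^ t)]; exact hκ2)
    refine ⟨c, hc, ?_⟩
    filter_upwards [h] with N hN
    rw [failures_eq]
    exact hN
  refine ⟨?_, hsqrt, ?_⟩
  · intro b x w hb hirr hw hint m q e hq hcop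
    have halg := Pool.Agent.L7h2.EN.alg_of_int x w hw hint
    have hfar := Pool.Agent.L7h2.EN.farBd_w b hb x w hw hint m (Pool.Agent.L7h2.EN.ext q) e
      (Pool.Agent.L7h2.EN.ext_ne q hq)
      (by rw [Pool.Agent.L7h2.EN.sum_ext q (fun t => (b : ℤ) ^ t)]; exact hcop)
    constructor
    · intro hne
      obtain ⟨c, δ, hc, hδ, h⟩ := Pool.Agent.L7h2.EN.one_lower b hb x halg hirr m
        (Pool.Agent.L7h2.EN.ext q) e hfar (by rw [Pool.Agent.L7h2.EN.sum_ext_one]; exact hne)
      refine ⟨c, δ, hc, hδ, ?_⟩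
      filter_upwards [h] with N hN
      rw [failures_eq]
      exact hN
    · intro T
      obtain ⟨C, -, κ, -, h⟩ := Pool.Agent.L7h2.EN.one_changes b hb x m
        (Pool.Agent.L7h2.EN.ext q) e hfar T
      refine ⟨C, κ, fun N => ?_⟩
      rw [failures_eq, mixed_eq]
      exact h N
  · intro P hP
    obtain ⟨c, hc, h⟩ := hsqrt (P + 1) (fun t => if (t : ℕ) = 0 then 1 else
      if (t : ℕ) = P then 1 else 0) 1
      (by
        rw [Fin.sum_univ_eq_sum_range (fun t => (if t = 0 then (1 : ℤ) else if t = P then 1 else 0) *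
          2 ^ t) (P + 1), Finset.sum_range_succ]
        have h0 : (0 : ℤ) ≤ ∑ t ∈ range P, (if t = 0 then (1 : ℤ) else if t = P then 1 else 0) *
            2 ^ t := Finset.sum_nonneg fun t _ => by split_ifs <;> simp
        rw [if_neg (by omega), if_pos rfl]
        have : (0 : ℤ) < 2 ^ P := by positivity
        linarith) one_ne_zero
      (by
        rw [Fin.sum_univ_eq_sum_range (fun t => if t = 0 then (1 : ℤ) else if t = P then 1 else 0)
          (P + 1), Finset.sum_range_succ, if_neg (by omega), if_pos rfl]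
        obtain ⟨P', rfl⟩ : ∃ P', P = P' + 1 := ⟨P - 1, by omega⟩
        rw [Finset.sum_range_succ', if_pos rfl]
        have h0 : (0 : ℤ) ≤ ∑ t ∈ range P', (if t + 1 = 0 then (1 : ℤ) else
            if t + 1 = P' + 1 then 1 else 0) := Finset.sum_nonneg fun t _ => by split_ifs <;> simp
        linarith) (2 ^ P + 1) (Nat.le_add_left 1 _)
      (by
        intro p r hp hp2 hdvd
        rw [Fin.sum_univ_eq_sum_range (fun t => (if t = 0 then (1 : ℤ) else if t = P then 1 else 0) *
          2 ^ t) (P + 1), Finset.sum_range_succ, if_neg (by omega), if_pos rfl] at hdvd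
        obtain ⟨P', rfl⟩ : ∃ P', P = P' + 1 := ⟨P - 1, by omega⟩
        rw [Finset.sum_range_succ', if_pos rfl] at hdvd
        have h0 : ∑ t ∈ range P', (if t + 1 = 0 then (1 : ℤ) else
            if t + 1 = P' + 1 then 1 else 0) * 2 ^ (t + 1) = 0 := by
          apply Finset.sum_eq_zero
          intro t ht
          rw [Finset.mem_range] at ht
          rw [if_neg (by omega), if_neg (by omega), zero_mul]
        rw [h0] at hdvd
        have h1 : ((p ^ r : ℕ) : ℤ) ∣ ((2 ^ (P' + 1) + 1 : ℕ) : ℤ) := by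
          push_cast
          have e1 : (0 : ℤ) + 1 * 2 ^ 0 + 1 * 2 ^ (P' + 1) = 2 ^ (P' + 1) + 1 := by ring
          rw [e1] at hdvd
          exact hdvd
        exact Nat.le_of_dvd (by positivity) (Int.natCast_dvd_natCast.1 h1))
    refine ⟨c, hc, ?_⟩
    filter_upwards [h] with N hN
    have e1 : (((2 ^ P + 1 : ℕ)) : ℝ) = 2 ^ P + 1 := by push_cast; ring
    rw [e1] at hN
    refine hN.trans ?_
    have : failures 2 (√2) (fun t : Fin (P + 1) => if (t : ℕ) = 0 then (1 : ℤ) else
        if (t : ℕ) = P then 1 else 0) 1 N ≤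
        ((Icc 1 N).filter (fun k : ℕ => digit 2 (√2) k = digit 2 (√2) (k + P))).card := by
      unfold failures
      apply Finset.card_le_card
      intro k hk
      rw [Finset.mem_filter] at hk ⊢
      refine ⟨hk.1, ?_⟩
      have h2 := hk.2
      rw [Fin.sum_univ_eq_sum_range (fun t => (if t = 0 then (1 : ℤ) else if t = P then 1 else 0) *
        digit 2 (√2) (k + t)) (P + 1), Finset.sum_range_succ, if_neg (by omega), if_pos rfl] at h2
      obtain ⟨P', rfl⟩ : ∃ P', P = P' + 1 := ⟨P - 1, by omega⟩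
      rw [Finset.sum_range_succ', if_pos rfl] at h2
      have h0 : ∑ t ∈ range P', (if t + 1 = 0 then (1 : ℤ) else
          if t + 1 = P' + 1 then 1 else 0) * digit 2 (√2) (k + (t + 1)) = 0 := by
        apply Finset.sum_eq_zero
        intro t ht
        rw [Finset.mem_range] at ht
        rw [if_neg (by omega), if_neg (by omega), zero_mul]
      rw [h0] at h2
      have a1 : 0 ≤ digit 2 (√2) k := Int.emod_nonneg _ (by norm_num)
      have a2 : digit 2 (√2) k < 2 := Int.emod_lt_of_pos _ (by norm_num)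
      have a3 : 0 ≤ digit 2 (√2) (k + (P' + 1)) := Int.emod_nonneg _ (by norm_num)
      have a4 : digit 2 (√2) (k + (P' + 1)) < 2 := Int.emod_lt_of_pos _ (by norm_num)
      simp only [add_zero, one_mul, zero_add] at h2
      omega
    exact_mod_cast this

end Pool.Agent.Results.MP_c8ecb2_nt.AllRelationsPowerRate
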