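import Pool.Agent.L7h46.CT.Tup

/-!
# Coverings of the columns of digits of independent tuples of algebraic numbers

No hypothesis is assumed. Let `α_1, …, α_n` be real algebraic numbers such that `1, α_1, …, α_n` are
linearly independent over `ℚ`, and let `D` be the degree of the field `ℚ(α_1, …, α_n)`. Let
`e ∈ {0, b - 1}^n`. If the tuple is normal to base `b`, a proportion `1 - b^(-n)` of the columns
`(a_{1,k}, …, a_{n,k})` of the digits is different from `e`. Here it is proved that if the places
`k ≤ N` of the columns different from `e` are covered by `K` intervals of total length `W`, then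
`c N ≤ K ^ (D - n) W`; for instance `c N ≤ K W` for `(√2, √3, √6)`. With intervals of length one this
is the bound `c N ≤ W ^ (D - n + 1)` of the starting result `IndependentTuples`. A finite automaton
with state set `Q` which reads the columns and predicts each of them before it is read, `E` times
wrongly among the first `N`, satisfies `c N ≤ |Q| (E + 1) ^ (D - n) W`, where `W` is the number of
columns different from `e`.

Proof. All elements of the field are rational linear combinations of products of length at most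
`m = D - n` of the `α_j`. Let `y = 1 + ∑ {α_j}` and let `z` be the fractional part of an element of
the field. The tail at the place `k` of the product of the expansions of `y ^ m` and of `z` is near
an integer up to a multiple of the tail of the expansion of `y ^ m`. By the theorem of Ridout it is
bounded below for at least half of the places `k ≤ N`, outside of the sums of `m` intervals; if it is
bounded below, then the place is near a sum of `m + 1` intervals, or the sum of the tails is large.
-/

set_option autoImplicit false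

open Finset IntermediateField Module

namespace Pool.Agent.Results.MP_c8ecb2_nt.CoveringColumns

/-- the `k`-th digit of `x` after the point in base `b` -/
noncomputable def digit (b : ℕ) (x : ℝ) (k : ℕ) : ℤ := ⌊x * (b : ℝ) ^ k⌋ % (b : ℤ)

/-- the column of the `k`-th digits of the numbers `α j` -/
noncomputable def col {n : ℕ} (b : ℕ) (α : Fin n → ℝ) (k : ℕ) : Fin n → ℤ :=
  fun j => digit b (α j) k

/-- the intervals `[u i, w i]`, `i < K`, are not empty and cover all `k ∈ [1, N]` with `P k` -/
def Covers (P : ℕ → Prop) (N K : ℕ) (u w : ℕ → ℕ) : Prop :=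
  (∀ i < K, u i ≤ w i) ∧ ∀ k, 1 ≤ k → k ≤ N → P k → ∃ i < K, u i ≤ k ∧ k ≤ w i

/-- the total number of elements of the intervals `[u i, w i]`, `i < K` -/
def total (K : ℕ) (u w : ℕ → ℕ) : ℕ := ∑ i ∈ range K, (w i + 1 - u i)

open Classical in
/-- the number of the `k ∈ [1, N]` with `P k` -/
noncomputable def count (P : ℕ → Prop) (N : ℕ) : ℕ := ((Icc 1 N).filter P).card

lemma conv {P P' : ℕ → Prop} {N K : ℕ} {u w : ℕ → ℕ} (hP : ∀ k, P' k → P k)
    (h : Covers P N K u w) : Pool.Agent.L7h46.CT.Covers P' N K u w :=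
  ⟨h.1, fun k hk hk' => h.2 k (mem_Icc.1 hk).1 (mem_Icc.1 hk).2 (hP k hk')⟩

lemma ne_col {n b : ℕ} {α : Fin n → ℝ} {e : Fin n → ℤ} {k : ℕ}
    (h : ∃ j, Pool.Agent.H726R3.Joint.digit b (α j) k ≠ e j) : col b α k ≠ e := by
  obtain ⟨j, hj⟩ := h
  intro h1
  exact hj (congrFun h1 j)

lemma automaton {n b N : ℕ} {α : Fin n → ℝ} {e : Fin n → ℤ} {c : ℝ} (hc : 0 < c) {m : ℕ}
    (h : ∀ (K : ℕ) (u w : ℕ → ℕ), Covers (fun k => col b α k ≠ e) N K u w →
      c * N ≤ (K : ℝ) ^ m * (total K u w : ℝ))
    (Q : Type) [Finite Q] (step : Q → (Fin n → ℤ) → Q) (out : Q → Fin n → ℤ) (s : ℕ → Q)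
    (hs : ∀ k, s (k + 1) = step (s k) (col b α (k + 1))) :
    c / 2 * N ≤ Nat.card Q * ((count (fun k => out (s (k - 1)) ≠ col b α k) N : ℝ) + 1) ^ m *
      (count (fun k => col b α k ≠ e) N : ℝ) := by
  classical
  obtain ⟨enc0, henc0⟩ := exists_injective_nat (Fin n → ℤ)
  set enc : (Fin n → ℤ) → ℤ := fun v => (enc0 v : ℤ) with henc
  have hinj : Function.Injective enc := fun a b hab => henc0 (by
    have h2 : (enc0 a : ℤ) = (enc0 b : ℤ) := hab
    exact_mod_cast h2)
  have h1 := Pool.Agent.R474.AG.auto_finite (Q := Q) (fun k => enc (col b α k)) (enc e) c hc.le m N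
    (fun K u w huw hcov => h K u w ⟨huw, fun k hk1 hk2 hk => hcov k (mem_Icc.2 ⟨hk1, hk2⟩)
      (fun h => hk (hinj h))⟩)
    (fun q v => step q (Function.invFun enc v)) (fun q => enc (out q)) s (fun k => by
      show s (k + 1) = step (s k) (Function.invFun enc (enc (col b α (k + 1))))
      rw [Function.leftInverse_invFun hinj]
      exact hs k)
  have e1 : ((Icc 1 N).filter (fun k => enc (col b α k) ≠ enc (out (s (k - 1))))).card =
      count (fun k => out (s (k - 1)) ≠ col b α k) N := by
    unfold count
    have h3 : (fun k => enc (col b α k) ≠ enc (out (s (k - 1)))) =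
        fun k => out (s (k - 1)) ≠ col b α k := by
      funext k
      rw [hinj.ne_iff, ne_comm]
    simp only [h3]
    congr!
  have e2 : ((Icc 1 N).filter (fun k => enc (col b α k) ≠ enc e)).card =
      count (fun k => col b α k ≠ e) N := by
    unfold count
    have h3 : (fun k => enc (col b α k) ≠ enc e) = fun k => col b α k ≠ e := by
      funext k
      rw [hinj.ne_iff]
    simp only [h3]
    congr!
  rw [e1, e2] at h1
  exact h1

/-- Let `b ≥ 2`. (1) Let `α_1, …, α_n` (`n ≥ 1`) be real algebraic numbers such that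
`1, α_1, …, α_n` are linearly independent over `ℚ`, let `D` be the degree of the field which they
generate, and let `e` be a column with entries in `{0, b - 1}`. There are `c > 0` and `N₀` such that
for all `N ≥ N₀`: if `K` intervals cover all the places `k ∈ [1, N]` with a column different from
`e`, then `c N ≤ K ^ (D - n) W`, where `W` is the total length of the intervals; and if a finite
automaton with state set `Q` reads the columns one after the other (`s k` is its state after the
columns `1, …, k`) and makes a prediction `out (s k)` of the column `k + 1`, then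
`c N ≤ |Q| (E + 1) ^ (D - n) W`, where `E` is the number of the wrong predictions of the columns
`1, …, N` and `W` is the number of those of them which are different from `e`.
(2) Let moreover `θ` be an irrational element of the field and let `d ∈ {0, b - 1}`. There are
`c > 0` and `N₀` such that for all `N ≥ N₀`, if `K` intervals of total length `W` cover the places in
`[1, N]` of the columns different from `e` and `K'` intervals of total length `W'` cover the places in
`[1, N]` of the digits of `θ` different from `d`, then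
`c N ≤ K ^ (D - n) W' + K' K ^ (D - n - 1) W`.
(3) Let `α_1, …, α_n` be irrational elements of a real number field `L`, all of whose elements are
rational linear combinations of products of at most `m` of the numbers `α_j` (`m ≥ 1`). Then the
statement (2) holds with `m` instead of `D - n`, for all irrational `θ ∈ L`. -/
theorem result (b : ℕ) (hb : 2 ≤ b) :
    (∀ n : ℕ, 1 ≤ n → ∀ α : Fin n → ℝ, (∀ j, IsAlgebraic ℚ (α j)) →
      LinearIndependent ℚ (Fin.cons 1 α : Fin (n + 1) → ℝ) →
      ∀ D : ℕ, finrank ℚ (adjoin ℚ (Set.range α)) = D →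
      ∀ e : Fin n → ℤ, (∀ j, e j = 0 ∨ e j = b - 1) →
      (∃ c : ℝ, 0 < c ∧ ∃ N₀ : ℕ, ∀ N : ℕ, N₀ ≤ N →
        (∀ (K : ℕ) (u w : ℕ → ℕ), Covers (fun k => col b α k ≠ e) N K u w →
          c * N ≤ (K : ℝ) ^ (D - n) * (total K u w : ℝ)) ∧
        (∀ (Q : Type) [Finite Q] (step : Q → (Fin n → ℤ) → Q) (out : Q → Fin n → ℤ) (s : ℕ → Q),
          (∀ k, s (k + 1) = step (s k) (col b α (k + 1))) →
          c * N ≤ Nat.card Q *
            ((count (fun k => out (s (k - 1)) ≠ col b α k) N : ℝ) + 1) ^ (D - n) *
            (count (fun k => col b α k ≠ e) N : ℝ))) ∧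
      (∀ θ ∈ adjoin ℚ (Set.range α), Irrational θ → ∀ d : ℤ, (d = 0 ∨ d = b - 1) →
        ∃ c : ℝ, 0 < c ∧ ∃ N₀ : ℕ, ∀ N : ℕ, N₀ ≤ N → ∀ (K K' : ℕ) (u w u' w' : ℕ → ℕ),
          Covers (fun k => col b α k ≠ e) N K u w → Covers (fun k => digit b θ k ≠ d) N K' u' w' →
          c * N ≤ (K : ℝ) ^ (D - n) * (total K' u' w' : ℝ) +
            K' * (K : ℝ) ^ (D - n - 1) * (total K u w : ℝ))) ∧
    (∀ L : IntermediateField ℚ ℝ, FiniteDimensional ℚ L → ∀ n : ℕ, 1 ≤ n → ∀ α : Fin n → ℝ,
      (∀ j, Irrational (α j)) → (∀ j, α j ∈ L) → ∀ m : ℕ, 1 ≤ m →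
      (∀ v ∈ L, v ∈ (Submodule.span ℚ (insert 1 (Set.range α))) ^ m) →
      ∀ e : Fin n → ℤ, (∀ j, e j = 0 ∨ e j = b - 1) →
      ∀ θ ∈ L, Irrational θ → ∀ d : ℤ, (d = 0 ∨ d = b - 1) →
        ∃ c : ℝ, 0 < c ∧ ∃ N₀ : ℕ, ∀ N : ℕ, N₀ ≤ N → ∀ (K K' : ℕ) (u w u' w' : ℕ → ℕ),
          Covers (fun k => col b α k ≠ e) N K u w → Covers (fun k => digit b θ k ≠ d) N K' u' w' →
          c * N ≤ (K : ℝ) ^ m * (total K' u' w' : ℝ) +
            K' * (K : ℝ) ^ (m - 1) * (total K u w : ℝ)) := by
  refine ⟨?_, ?_⟩
  · rintro n hn α halg hli D rfl e he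
    refine ⟨?_, ?_⟩
    · obtain ⟨c, hc, N₀, h⟩ := Pool.Agent.L7h46.CT.cover_self hb hn halg hli he
      have h' : ∀ N, N₀ ≤ N → ∀ (K : ℕ) (u w : ℕ → ℕ), Covers (fun k => col b α k ≠ e) N K u w →
          c * N ≤ (K : ℝ) ^ (finrank ℚ (adjoin ℚ (Set.range α)) - n) * (total K u w : ℝ) :=
        fun N hN K u w hcov => h N K u w hN (conv (fun k hk => ne_col hk) hcov)
      refine ⟨c / 2, by positivity, N₀, fun N hN => ⟨fun K u w hcov => ?_,
        fun Q _ step out s hs => automaton hc (h' N hN) Q step out s hs⟩⟩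
      have h1 := h' N hN K u w hcov
      have h2 : (0 : ℝ) ≤ N := Nat.cast_nonneg _
      nlinarith
    · intro θ hθ hirr d hd
      obtain ⟨c, hc, N₀, h⟩ := Pool.Agent.L7h46.CT.cover_indep hb hn halg hli he hθ hirr hd
      exact ⟨c, hc, N₀, fun N hN K K' u w u' w' hcov hcov' =>
        h N K K' u w u' w' hN (conv (fun k hk => ne_col hk) hcov) (conv (fun k hk => hk) hcov')⟩
  · intro L hL n hn α hα hαL m hm hspan e he θ hθ hirr d hd
    have : Nonempty (Fin n) := ⟨⟨0, hn⟩⟩
    obtain ⟨c, hc, N₀, h⟩ := Pool.Agent.L7h46.CT.cover_main hb L hα hαL hm hspan hθ hirr hd he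
    exact ⟨c, hc, N₀, fun N hN K K' u w u' w' hcov hcov' =>
      h N K K' u w u' w' hN (conv (fun k hk => ne_col hk) hcov) (conv (fun k hk => hk) hcov')⟩

end Pool.Agent.Results.MP_c8ecb2_nt.CoveringColumns
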