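import Pool.Agent.L7h4.OC.Av
import Pool.Agent.L7h4.OC.Wb
import Pool.Agent.L7h4.OC.Asm

/-!
# Simultaneous normality is the frequency of one column of digits

Let `b ≥ 2`, `n ≥ 1` and let `w` be one fixed column of `n` digits in base `b`. All tuples
`(α_1, …, α_n)` of real algebraic numbers for which `1, α_1, …, α_n` are linearly independent over `ℚ`
are normal to base `b` if and only if none of them has a deficiency of `w` among the columns
`(a_{1,i}, …, a_{n,i})` of its digits, i.e. if and only if the lower density of the places `i` with this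
column is at least `b ^ (-n)` for every such tuple, and if and only if none has an excess of `w`. The same
holds in every subfield of `ℝ`, and for every class of tuples of real numbers which is stable under
`(x_j) ↦ (b ^ (o_j) x_j + r_j)` with natural `o_j` and rational `r_j`. More precisely, for every tuple
`x` which is not normal there are exponents `o_j`, from a finite set which depends only on `b`, `n` and on
how far `x` is from being normal, such that for all large `k` at least `(c / k) (b ^ k - 1) ^ n` of the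
tuples `(b ^ (o_j) x_j + p_j / (b ^ k - 1))`, `0 ≤ p_j < b ^ k - 1`, have a deficiency of `w` of at least
`c / k`, and as many have an excess of at least `c / k`.

Proof. Let `M = b ^ k - 1`. The Fourier transform of the indicator of a digit interval vanishes at the
multiples of `b` other than `0` and nowhere else. So for a vector `h ≠ 0` of integers each of which is `0`
or not divisible by `b`, and for `c < k`, the discrete Fourier transform over `p` modulo `M` of the number
of the occurrences of `w` up to `N` in `y + p / M` is, at the frequency `b ^ c h`, a nonzero multiple of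
the exponential sum of `h · y b ^ i` over the `i < N` in one class modulo `k`, up to `O(N / M)`. If the
exponential sums of `h · y b ^ i` are large for infinitely many `N`, the mean over `p` of the absolute
deviations is at least `c N / k`, while the mean of the deviations is `O(N / M)`. A frequency
`(b ^ (o_j) h_j)` of the tuple `x` is the frequency `h` of the tuple `(b ^ (o_j) x_j)`; this is the reason
for the exponents `o_j`. The criterion of Weyl finishes the proof.
-/

set_option autoImplicit false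

open Finset Filter Topology

namespace Pool.Agent.Results.MP_c8ecb2_nt.OneColumnInTranslates

section

variable {n : ℕ}

/-- the number of the `1 ≤ i ≤ N` for which the `i`-th digit of `x j` in base `b` is `w j` for all `j` -/
noncomputable def column (b : ℕ) (w : Fin n → Fin b) (x : Fin n → ℝ) (N : ℕ) : ℕ :=
  ((Icc 1 N).filter fun i : ℕ =>
    ∀ j, ⌊x j * (b : ℝ) ^ i⌋ % (b : ℤ) = (((w j : Fin b) : ℕ) : ℤ)).card

/-- the column `w` has a deficiency of at least `τ`: its density up to `N` is at most `b ^ (-n) - τ` for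
infinitely many `N` -/
def Deficient (b : ℕ) (w : Fin n → Fin b) (τ : ℝ) (x : Fin n → ℝ) : Prop :=
  ∃ᶠ N : ℕ in atTop, (column b w x N : ℝ) ≤ (1 / (b : ℝ) ^ n - τ) * N

/-- the column `w` has an excess of at least `τ`: its density up to `N` is at least `b ^ (-n) + τ` for
infinitely many `N` -/
def Abundant (b : ℕ) (w : Fin n → Fin b) (τ : ℝ) (x : Fin n → ℝ) : Prop :=
  ∃ᶠ N : ℕ in atTop, (1 / (b : ℝ) ^ n + τ) * N ≤ (column b w x N : ℝ)

/-- the lower density of the column `w` is at least `b ^ (-n)` -/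
def LowerGe (b : ℕ) (w : Fin n → Fin b) (x : Fin n → ℝ) : Prop :=
  ∀ ε : ℝ, 0 < ε → ∀ᶠ N : ℕ in atTop, (1 / (b : ℝ) ^ n - ε) * N ≤ (column b w x N : ℝ)

/-- the upper density of the column `w` is at most `b ^ (-n)` -/
def UpperLe (b : ℕ) (w : Fin n → Fin b) (x : Fin n → ℝ) : Prop :=
  ∀ ε : ℝ, 0 < ε → ∀ᶠ N : ℕ in atTop, (column b w x N : ℝ) ≤ (1 / (b : ℝ) ^ n + ε) * N

/-- `x` is normal up to the error `η`: for all large `N` and all boxes `∏ [u j, v j)` in the unit cube the
number of the `i < N` for which the fractional part of `x j * b ^ i` lies in `[u j, v j)` for all `j`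
differs from `N` times the volume of the box by at most `η N` -/
def NormalUpTo (b : ℕ) (η : ℝ) (x : Fin n → ℝ) : Prop :=
  ∀ᶠ N : ℕ in atTop, ∀ u v : Fin n → ℝ, (∀ j, 0 ≤ u j ∧ u j < v j ∧ v j ≤ 1) →
    |(((range N).filter fun i : ℕ => ∀ j, u j ≤ Int.fract (x j * (b : ℝ) ^ i) ∧
      Int.fract (x j * (b : ℝ) ^ i) < v j).card : ℝ) - N * ∏ j, (v j - u j)| ≤ η * N

/-- the tuple is normal to base `b`, as in the frozen statement: every `n × m` matrix of digits occurs
with limiting frequency `b ^ (-m n)` -/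
def IsNormal (b : ℕ) (α : Fin n → ℝ) : Prop :=
  ∀ (m : ℕ), 1 ≤ m → ∀ D : Fin n → Fin m → Fin b,
    Tendsto
      (fun N : ℕ =>
        (((Finset.filter
            (fun i : ℕ => ∀ j : Fin n, ∀ t : Fin m,
              Int.floor (α j * (b : ℝ) ^ (i + (t : ℕ))) % (b : ℤ) = (((D j t : ℕ)) : ℤ))
            (Finset.Icc 1 N)).card : ℝ) / (N : ℝ)))
      atTop (nhds (1 / (b : ℝ) ^ (m * n)))

end

open Classical in
/-- Let `b ≥ 2` and let `w` be one column of `n` digits in base `b`.
(1) For every `η > 0` there are `c > 0`, `k₀ ≥ 1` and a finite set `O` of vectors of exponents such that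
for every tuple `x` of real numbers which is not normal up to `η` there is an `o ∈ O` such that, for all
`k ≥ k₀`, at least `(c / k) (b ^ k - 1) ^ n` of the tuples
`(b ^ (o j) * x j + p j / (b ^ k - 1))_j`, `0 ≤ p j < b ^ k - 1`, have a deficiency of `w` of at least
`c / k`, and at least as many have an excess of `w` of at least `c / k`. A tuple which is normal up to
every `η > 0` is normal.
(2) Let `T` be a set of tuples which contains `(b ^ (o j) * x j + r j)_j` with `x`, for all natural `o j`
and rational `r j`. All tuples of `T` are normal if and only if the lower density of `w` is at least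
`b ^ (-n)` for all of them, and if and only if its upper density is at most `b ^ (-n)` for all of them.
(3) The same holds for the tuples of elements of a subfield `K` of `ℝ` which are linearly independent
with `1` over `ℚ`.
(4) The same holds for the tuples of real algebraic numbers which are linearly independent with `1` over
`ℚ`: the question Q1 for `b` and `n` is the question of the deficiency of one column. -/
theorem result (b n : ℕ) (hb : 2 ≤ b) (w : Fin n → Fin b) :
    (∀ η : ℝ, 0 < η → ∃ (c : ℝ) (k₀ : ℕ) (O : Finset (Fin n → ℕ)), 0 < c ∧ 1 ≤ k₀ ∧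
      ∀ x : Fin n → ℝ, ¬ NormalUpTo b η x → ∃ o ∈ O, ∀ k, k₀ ≤ k →
        c / k * ((b : ℝ) ^ k - 1) ^ n ≤
          (((Fintype.piFinset fun _ : Fin n => range (b ^ k - 1)).filter fun p : Fin n → ℕ =>
            Deficient b w (c / k)
              (fun j => (b : ℝ) ^ (o j) * x j + (p j : ℝ) / ((b : ℝ) ^ k - 1))).card : ℝ) ∧
        c / k * ((b : ℝ) ^ k - 1) ^ n ≤
          (((Fintype.piFinset fun _ : Fin n => range (b ^ k - 1)).filter fun p : Fin n → ℕ =>
            Abundant b w (c / k)
              (fun j => (b : ℝ) ^ (o j) * x j + (p j : ℝ) / ((b : ℝ) ^ k - 1))).card : ℝ)) ∧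
    (∀ x : Fin n → ℝ, (∀ η : ℝ, 0 < η → NormalUpTo b η x) → IsNormal b x) ∧
    (∀ T : Set (Fin n → ℝ), (∀ x ∈ T, ∀ (o : Fin n → ℕ) (r : Fin n → ℚ),
        (fun j => (b : ℝ) ^ (o j) * x j + (r j : ℝ)) ∈ T) →
      ((∀ x ∈ T, IsNormal b x) ↔ ∀ x ∈ T, LowerGe b w x) ∧
        ((∀ x ∈ T, IsNormal b x) ↔ ∀ x ∈ T, UpperLe b w x)) ∧
    (∀ K : Subfield ℝ,
      ((∀ x : Fin n → ℝ, (∀ j, x j ∈ K) → LinearIndependent ℚ (Matrix.vecCons (1 : ℝ) x) →
          IsNormal b x) ↔
        ∀ x : Fin n → ℝ, (∀ j, x j ∈ K) → LinearIndependent ℚ (Matrix.vecCons (1 : ℝ) x) →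
          LowerGe b w x) ∧
      ((∀ x : Fin n → ℝ, (∀ j, x j ∈ K) → LinearIndependent ℚ (Matrix.vecCons (1 : ℝ) x) →
          IsNormal b x) ↔
        ∀ x : Fin n → ℝ, (∀ j, x j ∈ K) → LinearIndependent ℚ (Matrix.vecCons (1 : ℝ) x) →
          UpperLe b w x)) ∧
    ((∀ x : Fin n → ℝ, (∀ j, IsAlgebraic ℚ (x j)) →
        LinearIndependent ℚ (Matrix.vecCons (1 : ℝ) x) → IsNormal b x) ↔
      ∀ x : Fin n → ℝ, (∀ j, IsAlgebraic ℚ (x j)) →
        LinearIndependent ℚ (Matrix.vecCons (1 : ℝ) x) → LowerGe b w x) ∧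
    ((∀ x : Fin n → ℝ, (∀ j, IsAlgebraic ℚ (x j)) →
        LinearIndependent ℚ (Matrix.vecCons (1 : ℝ) x) → IsNormal b x) ↔
      ∀ x : Fin n → ℝ, (∀ j, IsAlgebraic ℚ (x j)) →
        LinearIndependent ℚ (Matrix.vecCons (1 : ℝ) x) → UpperLe b w x) := by
  have h2 : ∀ T : Set (Fin n → ℝ), (∀ x ∈ T, ∀ (o : Fin n → ℕ) (r : Fin n → ℚ),
        (fun j => (b : ℝ) ^ (o j) * x j + (r j : ℝ)) ∈ T) →
      ((∀ x ∈ T, IsNormal b x) ↔ ∀ x ∈ T, LowerGe b w x) ∧
        ((∀ x ∈ T, IsNormal b x) ↔ ∀ x ∈ T, UpperLe b w x) := fun T hT =>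
    Pool.Agent.L7h4.OC.main2 Pool.Agent.L7h4.OC.s_EX2 Pool.Agent.L7h4.OC.s_WB b n hb w T hT
  have hli : ∀ (x : Fin n → ℝ), LinearIndependent ℚ (Matrix.vecCons (1 : ℝ) x) →
      ∀ (o : Fin n → ℕ) (r : Fin n → ℚ), LinearIndependent ℚ
        (Matrix.vecCons (1 : ℝ) fun j => (b : ℝ) ^ (o j) * x j + (r j : ℝ)) := by
    intro x hx o r
    have h := Pool.Agent.L7h4.OC.li_trans hx (fun j => (b : ℚ) ^ (o j)) r fun j => by
      have : (b : ℚ) ≠ 0 := by exact_mod_cast (by omega : b ≠ 0)
      positivity
    have e : (fun j => (((b : ℚ) ^ (o j) : ℚ) : ℝ) * x j + (r j : ℝ)) =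
        fun j => (b : ℝ) ^ (o j) * x j + (r j : ℝ) := by
      funext j
      push_cast
      rfl
    rwa [e] at h
  refine ⟨fun η hη => Pool.Agent.L7h4.OC.main1 Pool.Agent.L7h4.OC.s_EX2 Pool.Agent.L7h4.OC.s_WB
    b n hb w η hη, fun x hx => Pool.Agent.L7h4.OC.normal_of_upTo (by omega) hx, h2, fun K => ?_, ?_⟩
  · have h := h2 {x | (∀ j, x j ∈ K) ∧ LinearIndependent ℚ (Matrix.vecCons (1 : ℝ) x)} (by
      rintro x ⟨hx, hx'⟩ o r
      refine ⟨fun j => ?_, hli x hx' o r⟩
      exact K.add_mem (K.mul_mem (K.pow_mem (natCast_mem K b) _) (hx j)) (SubfieldClass.ratCast_mem K (r j)))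
    simp only [Set.mem_ofPred_eq, and_imp] at h
    exact h
  · have h := h2 {x | (∀ j, IsAlgebraic ℚ (x j)) ∧ LinearIndependent ℚ (Matrix.vecCons (1 : ℝ) x)} (by
      rintro x ⟨hx, hx'⟩ o r
      refine ⟨fun j => ?_, hli x hx' o r⟩
      have h1 : IsAlgebraic ℚ ((b : ℝ) ^ (o j)) := by
        have := isAlgebraic_algebraMap (R := ℚ) (A := ℝ) ((b : ℚ) ^ (o j))
        simpa using this
      have h3 : IsAlgebraic ℚ ((r j : ℚ) : ℝ) := isAlgebraic_algebraMap (r j)
      exact (h1.mul (hx j)).add h3)
    simp only [Set.mem_ofPred_eq, and_imp] at h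
    exact h

end Pool.Agent.Results.MP_c8ecb2_nt.OneColumnInTranslates
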