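import Pool.Agent.L7h21.PM.Fin

/-!
# Joint digits of several polynomials with algebraic coefficients at the primes and at the integers

Let `F_1, …, F_r` be real polynomials with algebraic coefficients such that no nontrivial integral
combination of them has only rational coefficients outside the constant term (Weyl's condition), for
instance `F_j = α_j f` with a nonconstant `f ∈ ℤ[X]` and `1, α_1, …, α_r` linearly independent over `ℚ`,
or `(√2 X, √2 X ^ 2)`, where the leading coefficients are dependent. Then for all but at most
`M ^ (1 - c)` of the `m ≤ M` (hence also of the primes) the tuple `(F_1(m) + y_1, …, F_r(m) + y_r)` is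
jointly normal up to `A log M` digits; and for `p` random among the primes `p ≤ M` (and for `m` random
in `{1, …, M}`) the sum of a function over the digit matrices in a window inside the first `A log M`
digits has the Gaussian law which belongs to `r` independent random real numbers.

New here: inverse theorems with power savings for exponential sums with arbitrary real polynomial
phases over the primes (`Pool/Agent/L7h21/PM/Real.lean`, `PriReal.lean`; Vinogradov's method, after
`Pool/Agent/R361/MA` and `Pool/Agent/R486/PD/MinorArcs.lean` for phases `θ h(n)`, `h ∈ ℤ[X]`), the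
treatment of combinations with rational top coefficients (`Den.lean`, `Decay.lean`), and the
normality and central limit theorems for general families (`Gen2.lean`, `CltQ.lean`, after
`Pool/Agent/Y951/TU` for linear forms at all integer vectors).
-/

set_option autoImplicit false

open Filter Topology Polynomial

namespace Pool.Agent.Results.MP_c8ecb2_nt.PolynomialTuplesPrimes

/-- the word of the `k` digits in base `b` of `x` which follow the first `n` digits after the point,
read as an integer between `0` and `b ^ k - 1` -/
noncomputable def word (b k n : ℕ) (x : ℝ) : ℕ :=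
  ⌊(b : ℝ) ^ k * Int.fract ((b : ℝ) ^ n * x)⌋₊

/-- the digit matrix of width `k` whose `j`-th row is the word of `k` digits in base `b j` of `x j`
which follow the first `s j + i` digits after the point -/
noncomputable def matrix {r : ℕ} (b s : Fin r → ℕ) (k i : ℕ) (x : Fin r → ℝ) : Fin r → ℕ :=
  fun j => word (b j) k (s j + i) (x j)

/-- every digit matrix of width at most `w` stands with the right frequency, up to an error of `T`
places, in all the windows inside the first `L` digits; the rows may start at different places -/
def NearNormal {r : ℕ} (b : Fin r → ℕ) (w : ℕ) (T L : ℝ) (x : Fin r → ℝ) : Prop :=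
  ∀ (k : ℕ) (D s : Fin r → ℕ) (N : ℕ), 1 ≤ k → k ≤ w → (∀ j, D j < b j ^ k) →
    (∀ j, (s j : ℝ) + N ≤ L) →
    |(((Finset.range N).filter (fun i => matrix b s k i x = D)).card : ℝ) -
      N / ∏ j, (b j : ℝ) ^ k| ≤ T

/-- the tuples of words of `w` digits, the `j`-th word in base `b j` -/
def words {r : ℕ} (b : Fin r → ℕ) (w : ℕ) : Finset (Fin r → ℕ) :=
  Fintype.piFinset fun j => Finset.range (b j ^ w)

/-- the mean of `G` over the tuples of words of `w` digits -/
noncomputable def mean {r : ℕ} (b : Fin r → ℕ) (w : ℕ) (G : (Fin r → ℕ) → ℝ) : ℝ :=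
  (∑ c ∈ words b w, G c) / ∏ j, (b j : ℝ) ^ w

/-- the covariance of the values of `G` at the tuples of the words of `w` digits at the beginning and
at the end of a random tuple `c` of words of `w + h` digits -/
noncomputable def covariance {r : ℕ} (b : Fin r → ℕ) (w : ℕ) (G : (Fin r → ℕ) → ℝ) (h : ℕ) : ℝ :=
  (∑ c ∈ words b (w + h), (G (fun j => c j / b j ^ h) - mean b w G) *
    (G (fun j => c j % b j ^ w) - mean b w G)) / ∏ j, (b j : ℝ) ^ (w + h)

/-- the asymptotic variance of the sums of `G` over `N` consecutive digit matrices of `r` independent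
random real numbers, divided by `N` -/
noncomputable def variance {r : ℕ} (b : Fin r → ℕ) (w : ℕ) (G : (Fin r → ℕ) → ℝ) : ℝ :=
  covariance b w G 0 + 2 * ∑ h ∈ Finset.Ico 1 w, covariance b w G h

/-- the sum of `G` over the `N` digit matrices of the window `s` is at most
`N * mean + a * √(variance * N)` -/
def AtMost {r : ℕ} (b : Fin r → ℕ) (w : ℕ) (G : (Fin r → ℕ) → ℝ) (s : Fin r → ℕ) (N : ℕ) (a : ℝ)
    (x : Fin r → ℝ) : Prop :=
  ∑ i ∈ Finset.range N, G (matrix b s w i x) - N * mean b w G ≤ a * √(variance b w G * N)

/-- the tuple of the numbers `F_j(n) + y_j` -/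
noncomputable def values {r : ℕ} (F : Fin r → ℝ[X]) (y : Fin r → ℝ) (n : ℕ) : Fin r → ℝ :=
  fun j => (F j).eval (n : ℝ) + y j

open Classical in
/-- Let `F_1, …, F_r` be real polynomials with algebraic coefficients such that every nontrivial
integral combination of them has an irrational coefficient in some degree `≥ 1`. Let bases `b j ≥ 2`,
a width `w ≥ 1` and `A` be given.
(1) For every `ε > 0` there are `c > 0` and `M₀` such that for all `M ≥ M₀` and all real vectors `y`,
for all but at most `M ^ (1 - c)` of the positive integers `m ≤ M` the tuple `(F_j(m) + y_j)` has all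
its digit matrices of width at most `w` with the right frequencies, up to an error of `ε log M` places,
in all the windows inside the first `A log M` digits.
(2) Let `G` be a function of the digit matrices of width `w` whose asymptotic variance is positive. If
`N M → ∞` and `s M j + N M ≤ A log M` for all `j` and all large `M`, then the proportion of the primes
`p ≤ M` for which the sum of `G` over the `N M` digit matrices of `(F_j(p) + y M j)` in the window
`s M` is at most `N M * mean + a * √(variance * N M)` tends, for every real `a`, to the value at `a` of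
the distribution function of the standard normal distribution, and so does the proportion of the
positive integers `m ≤ M` with this property. -/
theorem result (r : ℕ) (hr : 1 ≤ r) (F : Fin r → ℝ[X])
    (halg : ∀ j i, IsAlgebraic ℚ ((F j).coeff i))
    (hind : ∀ c : Fin r → ℤ, c ≠ 0 → ∃ i, 1 ≤ i ∧ Irrational (∑ j, (c j : ℝ) * (F j).coeff i))
    (b : Fin r → ℕ) (hb : ∀ j, 2 ≤ b j) (w : ℕ) (hw : 1 ≤ w) (A : ℝ) :
    (∀ ε : ℝ, 0 < ε → ∃ c : ℝ, 0 < c ∧ ∃ M₀ : ℕ, ∀ M : ℕ, M₀ ≤ M → ∀ y : Fin r → ℝ,
      (((Finset.Icc 1 M).filter (fun m =>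
        ¬ NearNormal b w (ε * Real.log M) (A * Real.log M) (values F y m))).card : ℝ) ≤
        (M : ℝ) ^ (1 - c)) ∧
    (∀ G : (Fin r → ℕ) → ℝ, 0 < variance b w G →
      ∀ (y : ℕ → Fin r → ℝ) (s : ℕ → Fin r → ℕ) (N : ℕ → ℕ), Tendsto N atTop atTop →
      (∀ᶠ M : ℕ in atTop, ∀ j, (s M j : ℝ) + N M ≤ A * Real.log M) → ∀ a : ℝ,
      Tendsto (fun M : ℕ => (((Finset.Icc 1 M).filter (fun p =>
          p.Prime ∧ AtMost b w G (s M) (N M) a (values F (y M) p))).card : ℝ) /
          (((Finset.Icc 1 M).filter (fun p => p.Prime)).card : ℝ)) atTop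
        (𝓝 ((ProbabilityTheory.gaussianReal 0 1).real (Set.Iic a))) ∧
      Tendsto (fun M : ℕ => (((Finset.Icc 1 M).filter (fun m =>
          AtMost b w G (s M) (N M) a (values F (y M) m))).card : ℝ) / (M : ℝ)) atTop
        (𝓝 ((ProbabilityTheory.gaussianReal 0 1).real (Set.Iic a)))) := by
  have hb1 : ∀ j, 1 ≤ b j := fun j => by have := hb j; omega
  have hp : ∀ k : ℕ, (∏ j, (b j : ℝ) ^ k) = ((∏ j, b j : ℕ) : ℝ) ^ k := by
    intro k
    rw [Finset.prod_pow]
    push_cast
    rfl
  refine ⟨fun ε hε => ?_, fun G hG y s N hN hsN a => ?_⟩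
  · obtain ⟨c, hc, M₀, h⟩ := Pool.Agent.L7h21.PM.normal_count hr F halg hind hb w A ε hε
    refine ⟨c, hc, M₀, fun M hM y => ?_⟩
    refine le_trans (le_of_eq ?_) (h M hM y)
    congr 2
    refine Finset.filter_congr fun m _ => ?_
    rw [not_iff_not]
    unfold NearNormal Pool.Agent.L7h21.PM.Nrm
    refine forall_congr' fun k => forall_congr' fun D => forall_congr' fun s =>
      forall_congr' fun N => forall_congr' fun _ => forall_congr' fun _ => forall_congr' fun _ =>
      forall_congr' fun _ => ?_
    rw [hp]
    rfl
  · have h1 : ∀ v, mean b v G = Pool.Agent.Y951.TU.mnT b v G := by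
      intro v
      unfold mean Pool.Agent.Y951.TU.mnT
      rw [hp]
      rfl
    have h2 : ∀ h, covariance b w G h = Pool.Agent.Y951.TU.cvT b w G h := by
      intro h
      unfold covariance Pool.Agent.Y951.TU.cvT
      rw [hp, h1]
      rfl
    have h3 : variance b w G = Pool.Agent.Y951.TU.cvT b w G 0 +
        2 * ∑ h ∈ Finset.Ico 1 w, Pool.Agent.Y951.TU.cvT b w G h := by
      unfold variance
      simp only [h2]
    have h4 : ∀ M n, AtMost b w G (s M) (N M) a (values F (y M) n) ↔
        Pool.Agent.L7h21.PM.pt F (y M) n ∈ Pool.Agent.L7h21.PM.EvC b w G (s M) (N M) a := by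
      intro M n
      unfold AtMost Pool.Agent.L7h21.PM.EvC
      rw [h1, h3]
      rfl
    rw [h3] at hG
    refine ⟨?_, ?_⟩
    · have key := Pool.Agent.L7h21.PM.clt_primes hr F halg hind hb1 hw G hG A y s N hN hsN a
      refine key.congr fun M => ?_
      unfold Pool.Agent.L7h21.PM.Prs
      rw [Finset.filter_filter]
      simp only [h4]
    · have key := Pool.Agent.L7h21.PM.clt_nat hr F halg hind hb1 hw G hG A y s N hN hsN a
      refine key.congr fun M => ?_
      simp only [h4]

end Pool.Agent.Results.MP_c8ecb2_nt.PolynomialTuplesPrimes
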